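import Mathlib

set_option autoImplicit false

namespace Pool.Agent.H380Z.Neg

open scoped InnerProductSpace

variable {E : Type} [NormedAddCommGroup E] [InnerProductSpace ℂ E] {ι : Type} [Fintype ι]
  [DecidableEq ι]

/-- Blocks of an orthogonal projection. -/
structure Blocks (P : ι → ι → E →ₗ[ℂ] E) : Prop where
  adj : ∀ i j u v, ⟪P i j u, v⟫_ℂ = ⟪u, P j i v⟫_ℂ
  idem : ∀ i j v, ∑ k, P i k (P k j v) = P i j v

omit [DecidableEq ι] in
lemma Blocks.sum_sq {P : ι → ι → E →ₗ[ℂ] E} (h : Blocks P) (i : ι) (v : E) :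
    ∑ j, ‖P j i v‖ ^ 2 = (⟪v, P i i v⟫_ℂ).re := by
  rw [← h.idem i i v, inner_sum, Complex.re_sum]
  apply Finset.sum_congr rfl
  intro j _
  rw [← h.adj, ← inner_self_eq_norm_sq (𝕜 := ℂ)]
  rfl

lemma Blocks.off {P : ι → ι → E →ₗ[ℂ] E} (h : Blocks P) {i j : ι} (hij : i ≠ j) (v : E) :
    ‖P i j v‖ ^ 2 ≤ ‖v‖ ^ 2 / 4 := by
  have h1 := h.sum_sq j v
  have h2 : ‖P i j v‖ ^ 2 + ‖P j j v‖ ^ 2 ≤ ∑ k, ‖P k j v‖ ^ 2 := by
    rw [← Finset.sum_pair (f := fun k => ‖P k j v‖ ^ 2) hij]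
    exact Finset.sum_le_sum_of_subset_of_nonneg (Finset.subset_univ _) fun _ _ _ => sq_nonneg _
  have h3 : (⟪v, P j j v⟫_ℂ).re ≤ ‖v‖ * ‖P j j v‖ :=
    (Complex.re_le_norm _).trans (norm_inner_le_norm _ _)
  nlinarith [sq_nonneg (‖v‖ / 2 - ‖P j j v‖)]

lemma key_norm {P Q : ι → ι → E →ₗ[ℂ] E} (hP : Blocks P) (hQ : Blocks Q)
    (hc : ∀ i j k l v, P i j (Q k l v) = Q k l (P i j v)) {a b : ℝ} (ha : 0 ≤ a) (hb : 0 ≤ b)
    (hab : a ^ 2 + b ^ 2 = 1) {i j : ι} (hij : i ≠ j) (v : E) :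
    ‖(a : ℂ) • P i j v + (b : ℂ) • Q i j v‖ ^ 2 ≤
      ‖v‖ ^ 2 / 4 + 2 * a * b * (‖P j i v‖ * ‖Q j i v‖) := by
  rw [@norm_add_sq ℂ, norm_smul, norm_smul, Complex.norm_real, Complex.norm_real,
    Real.norm_of_nonneg ha, Real.norm_of_nonneg hb, inner_smul_left, inner_smul_right]
  have h1 := hP.off hij v
  have h2 := hQ.off hij v
  have h3 : ⟪P i j v, Q i j v⟫_ℂ = ⟪Q j i v, P j i v⟫_ℂ := by
    rw [hP.adj, hc, hQ.adj]
  have h4 : (⟪Q j i v, P j i v⟫_ℂ).re ≤ ‖Q j i v‖ * ‖P j i v‖ :=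
    (Complex.re_le_norm _).trans (norm_inner_le_norm _ _)
  have h5 : RCLike.re ((starRingEnd ℂ) (a : ℂ) * ((b : ℂ) * ⟪P i j v, Q i j v⟫_ℂ)) =
      a * b * (⟪Q j i v, P j i v⟫_ℂ).re := by
    rw [h3]
    simp
    ring
  rw [h5]
  have h6 := mul_le_mul_of_nonneg_left h4 (mul_nonneg ha hb)
  have h7 := mul_le_mul_of_nonneg_left h1 (sq_nonneg a)
  have h8 := mul_le_mul_of_nonneg_left h2 (sq_nonneg b)
  have h9 : a ^ 2 * (‖v‖ ^ 2 / 4) + b ^ 2 * (‖v‖ ^ 2 / 4) = ‖v‖ ^ 2 / 4 := by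
    rw [← add_mul, hab, one_mul]
  nlinarith

lemma real_step {k x y α β u w : ℝ} (hx : 0 ≤ x) (hy : 0 ≤ y) (hα : 0 ≤ α) (hβ : 0 ≤ β)
    (hu : 0 ≤ u) (hw : 0 ≤ w) (h1 : k ≤ u * y) (h2 : u ^ 2 ≤ x ^ 2 / 4 + α)
    (h3 : k ≤ x * w) (h4 : w ^ 2 ≤ y ^ 2 / 4 + β) : k ≤ x * y / 2 + (α + β) / 2 := by
  have a1 : x * u ≤ x ^ 2 / 2 + α := by
    apply le_of_sq_le_sq _ (by positivity) |>.trans le_rfl
    nlinarith [mul_le_mul_of_nonneg_left h2 (sq_nonneg x), sq_nonneg α]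
  have a2 : y * w ≤ y ^ 2 / 2 + β := by
    apply le_of_sq_le_sq _ (by positivity) |>.trans le_rfl
    nlinarith [mul_le_mul_of_nonneg_left h4 (sq_nonneg y), sq_nonneg β]
  by_contra hcon
  push Not at hcon
  set e := k - x * y / 2 with he
  have he0 : (α + β) / 2 < e := by linarith
  have he1 : 0 < e := by linarith
  have b1 : x * e ≤ α * y := by nlinarith [mul_le_mul_of_nonneg_left h1 hx]
  have b2 : y * e ≤ β * x := by nlinarith [mul_le_mul_of_nonneg_left h3 hy]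
  have hx0 : 0 < x := by
    rcases hx.eq_or_lt with h | h
    · rw [← h] at h3 he
      nlinarith
    · exact h
  have hy0 : 0 < y := by
    rcases hy.eq_or_lt with h | h
    · rw [← h] at h1 he
      nlinarith
    · exact h
  have c1 : (x * e) * (y * e) ≤ (α * y) * (β * x) :=
    mul_le_mul b1 b2 (by positivity) (by positivity)
  have c2 : e * e ≤ α * β := by
    have : (x * y) * (e * e) ≤ (x * y) * (α * β) := by nlinarith
    exact le_of_mul_le_mul_left this (by positivity)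
  nlinarith [sq_nonneg (α - β)]

theorem core {P Q : ι → ι → E →ₗ[ℂ] E} (hP : Blocks P) (hQ : Blocks Q)
    (hc : ∀ i j k l v, P i j (Q k l v) = Q k l (P i j v)) {a b : ℝ} (ha : 0 ≤ a) (hb : 0 ≤ b)
    (hab : a ^ 2 + b ^ 2 = 1) (χ : ι → E) :
    a * (-2 * (∑ j, ∑ i, ⟪χ i, P j i (χ j)⟫_ℂ).re) + b * (-2 * (∑ j, ∑ i, ⟪χ i, Q j i (χ j)⟫_ℂ).re)
      ≤ (∑ j, ∑ i, ‖χ i‖ * ‖χ j‖) - ∑ i, ‖χ i‖ ^ 2 := by
  set t : ι → ι → ℝ := fun i j => ‖P j i (χ i)‖ * ‖Q j i (χ i)‖ with ht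
  have ht0 : ∀ i j, 0 ≤ t i j := fun i j => by positivity
  set k : ι → ι → ℝ := fun i j => a * (⟪χ i, P j i (χ j)⟫_ℂ).re + b * (⟪χ i, Q j i (χ j)⟫_ℂ).re
    with hk
  have hoff : ∀ i j, i ≠ j → -k i j ≤ ‖χ i‖ * ‖χ j‖ / 2 +
      (2 * a * b * t i j + 2 * a * b * t j i) / 2 := by
    intro i j hij
    have e1 : k i j = (⟪χ i, (a : ℂ) • P j i (χ j) + (b : ℂ) • Q j i (χ j)⟫_ℂ).re := by
      rw [inner_add_right, inner_smul_right, inner_smul_right]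
      simp [hk]
    have e2 : k i j = (⟪(a : ℂ) • P i j (χ i) + (b : ℂ) • Q i j (χ i), χ j⟫_ℂ).re := by
      rw [inner_add_left, inner_smul_left, inner_smul_left, hP.adj, hQ.adj]
      simp [hk]
    refine real_step (norm_nonneg _) (norm_nonneg _) (by have := ht0 i j; positivity)
      (by have := ht0 j i; positivity) (norm_nonneg _) (norm_nonneg _) ?_
      (key_norm hP hQ hc ha hb hab hij (χ i)) ?_ (key_norm hP hQ hc ha hb hab hij.symm (χ j))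
    · rw [e2]
      exact (neg_le_abs _).trans ((Complex.abs_re_le_norm _).trans (norm_inner_le_norm _ _))
    · rw [e1]
      exact (neg_le_abs _).trans ((Complex.abs_re_le_norm _).trans (norm_inner_le_norm _ _))
  have hdiag : ∀ i, 2 * a * b * ∑ j, t i j ≤ k i i := by
    intro i
    simp only [hk, ← hP.sum_sq, ← hQ.sum_sq, Finset.mul_sum, ← Finset.sum_add_distrib]
    apply Finset.sum_le_sum
    intro j _
    simp only [ht]
    have ha1 : a ≤ 1 := by nlinarith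
    have hb1 : b ≤ 1 := by nlinarith
    have p0 := norm_nonneg (P j i (χ i))
    have q0 := norm_nonneg (Q j i (χ i))
    nlinarith [sq_nonneg (a * ‖P j i (χ i)‖ - b * ‖Q j i (χ i)‖),
      mul_nonneg (mul_nonneg ha (sub_nonneg.2 ha1)) (sq_nonneg ‖P j i (χ i)‖),
      mul_nonneg (mul_nonneg hb (sub_nonneg.2 hb1)) (sq_nonneg ‖Q j i (χ i)‖)]
  have hall : ∀ i j, -2 * k i j ≤ ‖χ i‖ * ‖χ j‖ + (2 * a * b * t i j + 2 * a * b * t j i)
      - (if i = j then ‖χ i‖ ^ 2 + 2 * k i i else 0) := by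
    intro i j
    split_ifs with h
    · subst h
      have : 0 ≤ 2 * a * b * t i i := by have := ht0 i i; positivity
      nlinarith
    · linarith [hoff i j h]
  have h1 : ∑ j, ∑ i, -2 * k i j ≤ ∑ j, ∑ i, (‖χ i‖ * ‖χ j‖ +
      (2 * a * b * t i j + 2 * a * b * t j i) - (if i = j then ‖χ i‖ ^ 2 + 2 * k i i else 0)) :=
    Finset.sum_le_sum fun j _ => Finset.sum_le_sum fun i _ => hall i j
  have h2 : ∑ j, ∑ i, -2 * k i j = a * (-2 * (∑ j, ∑ i, ⟪χ i, P j i (χ j)⟫_ℂ).re) +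
      b * (-2 * (∑ j, ∑ i, ⟪χ i, Q j i (χ j)⟫_ℂ).re) := by
    simp only [hk, Complex.re_sum, Finset.mul_sum, ← Finset.sum_add_distrib]
    refine Finset.sum_congr rfl fun j _ => Finset.sum_congr rfl fun i _ => by ring
  have h3 : ∑ j, ∑ i, 2 * a * b * t i j ≤ ∑ i, k i i := by
    rw [Finset.sum_comm]
    exact Finset.sum_le_sum fun i _ => by rw [← Finset.mul_sum]; exact hdiag i
  have h4 : ∑ j, ∑ i, 2 * a * b * t j i ≤ ∑ i, k i i :=
    Finset.sum_le_sum fun i _ => by rw [← Finset.mul_sum]; exact hdiag i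
  simp only [Finset.sum_sub_distrib, Finset.sum_add_distrib, Finset.sum_ite_eq', Finset.mem_univ,
    if_true] at h1
  rw [← Finset.mul_sum] at h1
  linarith

end Pool.Agent.H380Z.Neg
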