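import Pool.Agent.H380Z.Neg.Mat

set_option autoImplicit false

namespace Pool.Agent.H380Z.Neg

open scoped InnerProductSpace Kronecker
open Matrix

lemma bessel {E ι : Type} [NormedAddCommGroup E] [InnerProductSpace ℂ E] [Fintype ι]
    (χ : ι → E) (h : ∀ i j, i ≠ j → ⟪χ i, χ j⟫_ℂ = 0) (v : E) :
    ∑ j, ‖⟪((‖χ j‖ : ℂ)⁻¹ • χ j), v⟫_ℂ‖ ^ 2 ≤ ‖v‖ ^ 2 := by
  classical
  let s : Finset ι := Finset.univ.filter fun j => χ j ≠ 0
  have ho : Orthonormal ℂ (fun j : s => ((‖χ j‖ : ℂ)⁻¹ • χ j)) := by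
    constructor
    · intro j
      have hj : χ j ≠ 0 := (Finset.mem_filter.1 j.2).2
      simp only [norm_smul, norm_inv, Complex.norm_real, norm_norm]
      exact inv_mul_cancel₀ (norm_ne_zero_iff.2 hj)
    · intro i j hij
      simp only [inner_smul_left, inner_smul_right]
      rw [h i j (fun e => hij (Subtype.ext e))]
      simp
  have h1 := ho.sum_inner_products_le v (s := Finset.univ)
  rw [Finset.sum_coe_sort s (fun j => ‖⟪((‖χ j‖ : ℂ)⁻¹ • χ j), v⟫_ℂ‖ ^ 2)] at h1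
  refine le_trans (le_of_eq ?_) h1
  symm
  apply Finset.sum_filter_of_ne
  intro j _ hj h0
  apply hj
  simp [h0]

variable {ι β γ : Type} [Fintype ι] [DecidableEq ι] [Fintype β] [DecidableEq β] [Fintype γ]
  [DecidableEq γ]

lemma lower_G (ψ : ι × β × γ → ℂ) (h : ∀ i j, i ≠ j → ⟪comp ψ i, comp ψ j⟫_ℂ = 0)
    {l : ι × β × γ → ℝ} (hd : Diag (RG ψ) l) :
    (∑ j, ∑ i, ‖comp ψ i‖ * ‖comp ψ j‖) - ∑ i, ‖comp ψ i‖ ^ 2 ≤ ∑ i, (|l i| - l i) := by
  set φ : ι → EuclideanSpace ℂ (β × γ) := fun j => ((‖comp ψ j‖ : ℂ)⁻¹ • comp ψ j) with hφ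
  let W : Matrix (ι × β × γ) (ι × β × γ) ℂ :=
    Matrix.of fun x y => φ y.1 x.2 * star (φ x.1 y.2)
  have hW : ∀ v : ι × β × γ → ℂ, ‖star v ⬝ᵥ W *ᵥ v‖ ≤ (star v ⬝ᵥ v).re := by
    intro v
    have e1 : star v ⬝ᵥ W *ᵥ v = ∑ i, ∑ j, star ⟪φ j, comp v i⟫_ℂ * ⟪φ i, comp v j⟫_ℂ := by
      simp only [dotProduct, mulVec, W, of_apply, PiLp.inner_apply, RCLike.inner_apply, comp,
        Finset.mul_sum, Finset.sum_mul, star_sum, Pi.star_apply]
      rw [Fintype.sum_prod_type]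
      refine Finset.sum_congr rfl fun i _ => ?_
      simp only [Fintype.sum_prod_type (α₁ := ι)]
      rw [Finset.sum_comm]
      refine Finset.sum_congr rfl fun j _ => ?_
      rw [Finset.sum_comm]
      refine Finset.sum_congr rfl fun x _ => Finset.sum_congr rfl fun y _ => ?_
      simp only [star_mul', Complex.star_def, Complex.conj_conj]
      ring
    have e2 : (star v ⬝ᵥ v).re = ∑ i, ‖comp v i‖ ^ 2 := by
      simp only [dotProduct, Pi.star_apply, Complex.re_sum, EuclideanSpace.norm_sq_eq, comp]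
      rw [Fintype.sum_prod_type]
      refine Finset.sum_congr rfl fun i _ => Finset.sum_congr rfl fun x _ => ?_
      rw [Complex.star_def, Complex.conj_mul', ← Complex.ofReal_pow, Complex.ofReal_re]
    rw [e1, e2]
    have h1 : ‖∑ i, ∑ j, star ⟪φ j, comp v i⟫_ℂ * ⟪φ i, comp v j⟫_ℂ‖ ≤
        ∑ i, ∑ j, (‖⟪φ j, comp v i⟫_ℂ‖ ^ 2 / 2 + ‖⟪φ i, comp v j⟫_ℂ‖ ^ 2 / 2) := by
      refine (norm_sum_le _ _).trans (Finset.sum_le_sum fun i _ => ?_)
      refine (norm_sum_le _ _).trans (Finset.sum_le_sum fun j _ => ?_)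
      rw [norm_mul, norm_star]
      nlinarith [sq_nonneg (‖⟪φ j, comp v i⟫_ℂ‖ - ‖⟪φ i, comp v j⟫_ℂ‖)]
    refine h1.trans ?_
    simp only [Finset.sum_add_distrib, ← Finset.sum_div]
    rw [Finset.sum_comm (f := fun i j => ‖⟪φ i, comp v j⟫_ℂ‖ ^ 2)]
    have h2 : ∑ i, ∑ j, ‖⟪φ j, comp v i⟫_ℂ‖ ^ 2 ≤ ∑ i, ‖comp v i‖ ^ 2 :=
      Finset.sum_le_sum fun i _ => bessel (comp ψ) h (comp v i)
    linarith
  have h1 := hd.lower W hW
  have hin : ∀ i, ⟪φ i, comp ψ i⟫_ℂ = ‖comp ψ i‖ := by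
    intro i
    simp only [hφ, inner_smul_left, inner_self_eq_norm_sq_to_K]
    by_cases h0 : ‖comp ψ i‖ = 0
    · simp [h0]
    · have : (‖comp ψ i‖ : ℂ) ≠ 0 := by exact_mod_cast h0
      simp only [map_inv₀, Complex.conj_ofReal, Complex.coe_algebraMap]
      field_simp
  have e3 : (W * RG ψ).trace = ∑ j, ∑ i, star ⟪φ i, comp ψ i⟫_ℂ * ⟪φ j, comp ψ j⟫_ℂ := by
    simp only [trace, diag_apply, mul_apply, W, RG, of_apply, PiLp.inner_apply,
      RCLike.inner_apply, comp, Finset.mul_sum, Finset.sum_mul, star_sum]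
    rw [Fintype.sum_prod_type]
    refine Finset.sum_congr rfl fun j _ => ?_
    simp only [Fintype.sum_prod_type (α₁ := ι)]
    rw [Finset.sum_comm]
    refine Finset.sum_congr rfl fun i _ => ?_
    rw [Finset.sum_comm]
    refine Finset.sum_congr rfl fun x _ => Finset.sum_congr rfl fun y _ => ?_
    simp only [star_mul', Complex.star_def, Complex.conj_conj]
    ring
  have e4 : (RG ψ).trace.re = ∑ i, ‖comp ψ i‖ ^ 2 := by
    simp only [trace, diag_apply, RG, of_apply, Complex.re_sum, EuclideanSpace.norm_sq_eq, comp]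
    rw [Fintype.sum_prod_type]
    refine Finset.sum_congr rfl fun i _ => Finset.sum_congr rfl fun x _ => ?_
    rw [Complex.star_def, Complex.mul_conj', ← Complex.ofReal_pow, Complex.ofReal_re]
  rw [e3, e4] at h1
  simp only [hin, Complex.star_def, Complex.conj_ofReal, ← Complex.ofReal_mul,
    ← Complex.ofReal_sum, Complex.ofReal_re] at h1
  exact h1

omit [DecidableEq β] [DecidableEq γ] in
lemma exists_rot (ψ : ι × β × γ → ℂ) : ∃ U : Matrix ι ι ℂ, Uᴴ * U = 1 ∧ U * Uᴴ = 1 ∧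
    ∀ i j, i ≠ j → ⟪comp (rot U ψ) i, comp (rot U ψ) j⟫_ℂ = 0 := by
  let G : Matrix ι ι ℂ := Matrix.of fun x y => ∑ z, star (ψ (x, z)) * ψ (y, z)
  have hG : G.IsHermitian := by
    ext x y
    simp [G, star_sum, mul_comm]
  obtain ⟨U, a1, a2, a3⟩ := diag_of_herm hG
  refine ⟨U, a1, a2, fun i j hij => ?_⟩
  have h1 : Uᴴ * G * U = diagonal (fun i => (hG.eigenvalues i : ℂ)) := by
    conv_lhs => rw [a3]
    calc Uᴴ * (U * diagonal (fun i => (hG.eigenvalues i : ℂ)) * Uᴴ) * U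
        = (Uᴴ * U) * diagonal (fun i => (hG.eigenvalues i : ℂ)) * (Uᴴ * U) := by
          simp only [Matrix.mul_assoc]
      _ = _ := by rw [a1, Matrix.one_mul, Matrix.mul_one]
  have h2 := congrFun (congrFun h1 i) j
  rw [diagonal_apply_ne _ hij] at h2
  rw [← h2]
  simp only [PiLp.inner_apply, RCLike.inner_apply, comp, rot, mul_apply, conjTranspose_apply, G,
    of_apply, Finset.mul_sum, Finset.sum_mul, map_sum]
  rw [Finset.sum_comm]
  conv_rhs => rw [Finset.sum_comm]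
  refine Finset.sum_congr rfl fun x _ => ?_
  rw [Finset.sum_comm]
  refine Finset.sum_congr rfl fun y _ => Finset.sum_congr rfl fun z _ => ?_
  simp only [map_mul, Complex.star_def]
  ring

theorem main (ψ : ι × β × γ → ℂ) (hG : (RG ψ).IsHermitian) (hB : (RB ψ).IsHermitian)
    (hC : (RC ψ).IsHermitian) :
    (∑ i, (|hB.eigenvalues i| - hB.eigenvalues i)) ^ 2
      + (∑ i, (|hC.eigenvalues i| - hC.eigenvalues i)) ^ 2
      ≤ (∑ i, (|hG.eigenvalues i| - hG.eigenvalues i)) ^ 2 := by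
  obtain ⟨U, a1, a2, ho⟩ := exists_rot ψ
  have dG := diag_kron (diag_of_herm hG) U a1 a2
  have dB := diag_kron (diag_of_herm hB) U a1 a2
  have dC := diag_kron (diag_of_herm hC) U a1 a2
  rw [RG_rot] at dG
  rw [RB_rot] at dB
  rw [RC_rot] at dC
  have hl := lower_G _ ho dG
  obtain ⟨Q, q1, q2, q3⟩ := dB.upper
  obtain ⟨P, p1, p2, p3⟩ := dC.upper
  rw [trace_C] at q3
  rw [trace_B] at p3
  set N1 := ∑ i, (|hB.eigenvalues i| - hB.eigenvalues i) with hN1
  set N2 := ∑ i, (|hC.eigenvalues i| - hC.eigenvalues i) with hN2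
  set N := ∑ i, (|hG.eigenvalues i| - hG.eigenvalues i) with hN
  have n1 : 0 ≤ N1 := Finset.sum_nonneg fun i _ => sub_nonneg.2 (le_abs_self _)
  have n2 : 0 ≤ N2 := Finset.sum_nonneg fun i _ => sub_nonneg.2 (le_abs_self _)
  have key : ∀ a b : ℝ, 0 ≤ a → 0 ≤ b → a ^ 2 + b ^ 2 = 1 → a * N2 + b * N1 ≤ N := by
    intro a b ha hb hab
    have := core (blocks_B (γ := γ) P p1 p2) (blocks_C (β := β) Q q1 q2)
      (fun i j k l v => blk_comm P Q i j k l v) ha hb hab (comp (rot U ψ))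
    rw [← p3, ← q3] at this
    exact this.trans hl
  set r := Real.sqrt (N1 ^ 2 + N2 ^ 2) with hr
  have hr2 : r ^ 2 = N1 ^ 2 + N2 ^ 2 := Real.sq_sqrt (by positivity)
  have hr0 : 0 ≤ r := Real.sqrt_nonneg _
  rcases hr0.eq_or_lt with h0 | h0
  · rw [← hr2, ← h0]
    simpa using sq_nonneg N
  · have h1 := key (N2 / r) (N1 / r) (by positivity) (by positivity) (by
      field_simp
      linarith)
    have h2 : N2 / r * N2 + N1 / r * N1 = r := by
      field_simp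
      linarith
    rw [h2] at h1
    rw [← hr2]
    exact pow_le_pow_left₀ hr0 h1 2

end Pool.Agent.H380Z.Neg
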