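import Pool.Agent.H380Z.Neg.Core

set_option autoImplicit false

namespace Pool.Agent.H380Z.Neg

open scoped InnerProductSpace Kronecker
open Matrix

section diag

variable {n : Type} [Fintype n] [DecidableEq n]

/-- `X` is unitarily diagonalisable with eigenvalues `l`. -/
def Diag (X : Matrix n n ℂ) (l : n → ℝ) : Prop :=
  ∃ U : Matrix n n ℂ, Uᴴ * U = 1 ∧ U * Uᴴ = 1 ∧ X = U * diagonal (fun i => (l i : ℂ)) * Uᴴ

lemma diag_of_herm {X : Matrix n n ℂ} (h : X.IsHermitian) : Diag X h.eigenvalues := by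
  refine ⟨h.eigenvectorUnitary, ?_, ?_, ?_⟩
  · exact Unitary.coe_star_mul_self h.eigenvectorUnitary
  · exact Unitary.coe_mul_star_self h.eigenvectorUnitary
  · exact h.spectral_theorem

lemma Diag.conj {X : Matrix n n ℂ} {l : n → ℝ} (h : Diag X l) (V : Matrix n n ℂ)
    (h1 : Vᴴ * V = 1) (h2 : V * Vᴴ = 1) : Diag (Vᴴ * X * V) l := by
  obtain ⟨U, a1, a2, rfl⟩ := h
  refine ⟨Vᴴ * U, ?_, ?_, ?_⟩
  · rw [conjTranspose_mul, conjTranspose_conjTranspose, Matrix.mul_assoc, ← Matrix.mul_assoc V,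
      h2, Matrix.one_mul, a1]
  · rw [conjTranspose_mul, conjTranspose_conjTranspose, Matrix.mul_assoc, ← Matrix.mul_assoc U,
      a2, Matrix.one_mul, h1]
  · rw [conjTranspose_mul, conjTranspose_conjTranspose]
    simp only [Matrix.mul_assoc]

lemma Diag.upper {X : Matrix n n ℂ} {l : n → ℝ} (h : Diag X l) :
    ∃ P : Matrix n n ℂ, Pᴴ = P ∧ P * P = P ∧ ∑ i, (|l i| - l i) = -2 * (P * X).trace.re := by
  obtain ⟨U, a1, a2, rfl⟩ := h
  let D : Matrix n n ℂ := diagonal (fun i => if l i < 0 then 1 else 0)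
  have hD : Dᴴ = D := by
    simp only [D, diagonal_conjTranspose]
    congr 1
    funext i
    simp only [Pi.star_apply]
    split_ifs <;> simp
  have hDD : D * D = D := by
    simp only [D, diagonal_mul_diagonal]
    congr 1
    funext i
    split_ifs <;> simp
  refine ⟨U * D * Uᴴ, ?_, ?_, ?_⟩
  · rw [conjTranspose_mul, conjTranspose_mul, conjTranspose_conjTranspose, hD, Matrix.mul_assoc]
  · calc U * D * Uᴴ * (U * D * Uᴴ) = U * D * (Uᴴ * U) * D * Uᴴ := by simp only [Matrix.mul_assoc]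
      _ = U * D * Uᴴ := by rw [a1, Matrix.mul_one, Matrix.mul_assoc U D D, hDD]
  · have e : (U * D * Uᴴ * (U * diagonal (fun i => (l i : ℂ)) * Uᴴ)).trace =
        (D * diagonal (fun i => (l i : ℂ))).trace := by
      calc (U * D * Uᴴ * (U * diagonal (fun i => (l i : ℂ)) * Uᴴ)).trace
          = (U * (D * (Uᴴ * U) * diagonal (fun i => (l i : ℂ))) * Uᴴ).trace := by
            simp only [Matrix.mul_assoc]
        _ = _ := by rw [a1, Matrix.mul_one, trace_mul_cycle, a1, Matrix.one_mul]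
    rw [e]
    simp only [D, diagonal_mul_diagonal, trace_diagonal, Complex.re_sum, Finset.mul_sum]
    apply Finset.sum_congr rfl
    intro i _
    split_ifs with h
    · rw [abs_of_neg h]
      simp
      ring
    · rw [abs_of_nonneg (not_lt.1 h)]
      simp

lemma Diag.lower {X : Matrix n n ℂ} {l : n → ℝ} (h : Diag X l) (W : Matrix n n ℂ)
    (hW : ∀ v : n → ℂ, ‖star v ⬝ᵥ W *ᵥ v‖ ≤ (star v ⬝ᵥ v).re) :
    (W * X).trace.re - X.trace.re ≤ ∑ i, (|l i| - l i) := by
  obtain ⟨U, a1, a2, rfl⟩ := h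
  have e1 : (U * diagonal (fun i => (l i : ℂ)) * Uᴴ).trace.re = ∑ i, l i := by
    rw [trace_mul_cycle, a1, Matrix.one_mul, trace_diagonal, Complex.re_sum]
    simp
  have e2 : (W * (U * diagonal (fun i => (l i : ℂ)) * Uᴴ)).trace =
      ∑ i, (Uᴴ * W * U) i i * l i := by
    rw [← Matrix.mul_assoc, trace_mul_comm, ← Matrix.mul_assoc, ← Matrix.mul_assoc]
    simp [trace, mul_diagonal]
  rw [e1, e2, Finset.sum_sub_distrib, Complex.re_sum]
  apply sub_le_sub_right
  apply Finset.sum_le_sum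
  intro i _
  have h1 := hW (fun k => U k i)
  have h2 : star (fun k => U k i) ⬝ᵥ W *ᵥ (fun k => U k i) = (Uᴴ * W * U) i i := by
    rw [Matrix.mul_assoc]
    simp [dotProduct, mulVec, mul_apply]
  have h3 : star (fun k => U k i) ⬝ᵥ (fun k => U k i) = (Uᴴ * U) i i := by
    simp [dotProduct, mul_apply]
  rw [h2, h3, a1] at h1
  simp only [one_apply_eq, Complex.one_re] at h1
  refine (Complex.re_le_norm _).trans ?_
  rw [norm_mul, Complex.norm_real, Real.norm_eq_abs]
  exact mul_le_of_le_one_left (abs_nonneg _) h1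

end diag

variable {ι β γ : Type} [Fintype ι] [DecidableEq ι] [Fintype β] [DecidableEq β] [Fintype γ]
  [DecidableEq γ]

/-- Partial transpose of the pure state. -/
def RG (ψ : ι × β × γ → ℂ) : Matrix (ι × β × γ) (ι × β × γ) ℂ :=
  Matrix.of fun x y => ψ (y.1, x.2.1, x.2.2) * star (ψ (x.1, y.2.1, y.2.2))

/-- Its partial trace over the second factor. -/
def RB (ψ : ι × β × γ → ℂ) : Matrix (ι × γ) (ι × γ) ℂ :=
  Matrix.of fun x y => ∑ j, ψ (y.1, j, x.2) * star (ψ (x.1, j, y.2))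

/-- Its partial trace over the third factor. -/
def RC (ψ : ι × β × γ → ℂ) : Matrix (ι × β) (ι × β) ℂ :=
  Matrix.of fun x y => ∑ k, ψ (y.1, x.2, k) * star (ψ (x.1, y.2, k))

/-- Change of basis in the first factor. -/
def rot (U : Matrix ι ι ℂ) (ψ : ι × β × γ → ℂ) : ι × β × γ → ℂ :=
  fun x => ∑ i, U i x.1 * ψ (i, x.2)

lemma kron_conj {κ : Type} [Fintype κ] [DecidableEq κ] (U : Matrix ι ι ℂ)
    (X : Matrix (ι × κ) (ι × κ) ℂ) (x y : ι × κ) :
    ((U ⊗ₖ (1 : Matrix κ κ ℂ))ᴴ * X * (U ⊗ₖ (1 : Matrix κ κ ℂ))) x y =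
      ∑ j, ∑ i, star (U i x.1) * X (i, x.2) (j, y.2) * U j y.1 := by
  simp only [mul_apply, conjTranspose_apply, kroneckerMap_apply, Fintype.sum_prod_type, one_apply,
    mul_ite, mul_one, mul_zero, Finset.sum_ite_eq', Finset.mem_univ, if_true,
    apply_ite (star : ℂ → ℂ), star_zero, ite_mul, zero_mul, Finset.sum_mul]

lemma kron_unit {κ : Type} [Fintype κ] [DecidableEq κ] (U V : Matrix ι ι ℂ) (h : U * V = 1) :
    (U ⊗ₖ (1 : Matrix κ κ ℂ)) * (V ⊗ₖ (1 : Matrix κ κ ℂ)) = 1 := by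
  rw [← mul_kronecker_mul, h, Matrix.mul_one, one_kronecker_one]

lemma diag_kron {κ : Type} [Fintype κ] [DecidableEq κ] {X : Matrix (ι × κ) (ι × κ) ℂ}
    {l : ι × κ → ℝ} (h : Diag X l) (U : Matrix ι ι ℂ) (h1 : Uᴴ * U = 1) (h2 : U * Uᴴ = 1) :
    Diag ((U ⊗ₖ (1 : Matrix κ κ ℂ))ᴴ * X * (U ⊗ₖ (1 : Matrix κ κ ℂ))) l := by
  apply h.conj
  · rw [conjTranspose_kronecker, conjTranspose_one]
    exact kron_unit _ _ h1
  · rw [conjTranspose_kronecker, conjTranspose_one]
    exact kron_unit _ _ h2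

lemma RG_rot (U : Matrix ι ι ℂ) (ψ : ι × β × γ → ℂ) :
    (U ⊗ₖ (1 : Matrix (β × γ) (β × γ) ℂ))ᴴ * RG ψ * (U ⊗ₖ (1 : Matrix (β × γ) (β × γ) ℂ)) =
      RG (rot U ψ) := by
  ext x y
  rw [kron_conj]
  simp only [RG, rot, of_apply, star_sum, Finset.sum_mul, Finset.mul_sum, star_mul']
  rw [Finset.sum_comm]
  refine Finset.sum_congr rfl fun j _ => Finset.sum_congr rfl fun i _ => by ring

omit [DecidableEq β] in
lemma RB_rot (U : Matrix ι ι ℂ) (ψ : ι × β × γ → ℂ) :
    (U ⊗ₖ (1 : Matrix γ γ ℂ))ᴴ * RB ψ * (U ⊗ₖ (1 : Matrix γ γ ℂ)) = RB (rot U ψ) := by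
  ext x y
  rw [kron_conj]
  simp only [RB, rot, of_apply, star_sum, Finset.sum_mul, Finset.mul_sum, star_mul']
  rw [Finset.sum_comm]
  conv_rhs => rw [Finset.sum_comm]
  refine Finset.sum_congr rfl fun j _ => ?_
  rw [Finset.sum_comm]
  refine Finset.sum_congr rfl fun i _ => Finset.sum_congr rfl fun k _ => by ring

omit [DecidableEq γ] in
lemma RC_rot (U : Matrix ι ι ℂ) (ψ : ι × β × γ → ℂ) :
    (U ⊗ₖ (1 : Matrix β β ℂ))ᴴ * RC ψ * (U ⊗ₖ (1 : Matrix β β ℂ)) = RC (rot U ψ) := by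
  ext x y
  rw [kron_conj]
  simp only [RC, rot, of_apply, star_sum, Finset.sum_mul, Finset.mul_sum, star_mul']
  rw [Finset.sum_comm]
  conv_rhs => rw [Finset.sum_comm]
  refine Finset.sum_congr rfl fun j _ => ?_
  rw [Finset.sum_comm]
  refine Finset.sum_congr rfl fun i _ => Finset.sum_congr rfl fun k _ => by ring

/-- The components of the state. -/
def comp (ψ : ι × β × γ → ℂ) (i : ι) : EuclideanSpace ℂ (β × γ) :=
  WithLp.toLp 2 fun x => ψ (i, x)

/-- Blocks of a matrix on the first two factors, acting on the last two factors. -/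
noncomputable def blkB (P : Matrix (ι × β) (ι × β) ℂ) (i j : ι) : Matrix (β × γ) (β × γ) ℂ :=
  (Matrix.of fun x y => P (i, x) (j, y)) ⊗ₖ (1 : Matrix γ γ ℂ)

/-- Blocks of a matrix on the first and third factors, acting on the last two factors. -/
noncomputable def blkC (P : Matrix (ι × γ) (ι × γ) ℂ) (i j : ι) : Matrix (β × γ) (β × γ) ℂ :=
  (1 : Matrix β β ℂ) ⊗ₖ (Matrix.of fun x y => P (i, x) (j, y))

omit [DecidableEq ι] in
lemma blocks_of {κ : Type} [Fintype κ] [DecidableEq κ] (A : ι → ι → Matrix κ κ ℂ)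
    (h1 : ∀ i j, (A i j)ᴴ = A j i) (h2 : ∀ i j, ∑ k, A i k * A k j = A i j) :
    Blocks (fun i j => toEuclideanLin (A i j)) := by
  constructor
  · intro i j u v
    rw [← h1 i j, toEuclideanLin_conjTranspose_eq_adjoint, LinearMap.adjoint_inner_right]
  · intro i j v
    rw [← h2 i j, map_sum, LinearMap.sum_apply]
    apply Finset.sum_congr rfl
    intro k _
    rw [toLpLin_mul_same]
    rfl

omit [DecidableEq ι] in
lemma sub_idem {κ : Type} [Fintype κ] (P : Matrix (ι × κ) (ι × κ) ℂ) (h : P * P = P) (i j : ι) :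
    ∑ k, (Matrix.of fun x y => P (i, x) (k, y)) * (Matrix.of fun x y => P (k, x) (j, y)) =
      Matrix.of fun x y => P (i, x) (j, y) := by
  ext x y
  conv_rhs => rw [← h]
  simp [mul_apply, Matrix.sum_apply, Fintype.sum_prod_type]

omit [DecidableEq ι] [Fintype ι] in
lemma sub_herm {κ : Type} (P : Matrix (ι × κ) (ι × κ) ℂ) (h : Pᴴ = P) (i j : ι) :
    (Matrix.of fun x y => P (i, x) (j, y))ᴴ = Matrix.of fun x y => P (j, x) (i, y) := by
  ext x y
  conv_rhs => rw [← h]
  simp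

omit [DecidableEq ι] in
lemma blocks_B (P : Matrix (ι × β) (ι × β) ℂ) (h1 : Pᴴ = P) (h2 : P * P = P) :
    Blocks (fun i j => toEuclideanLin (blkB (γ := γ) P i j)) := by
  apply blocks_of
  · intro i j
    rw [blkB, conjTranspose_kronecker, conjTranspose_one, sub_herm P h1]
    rfl
  · intro i j
    simp only [blkB, ← mul_kronecker_mul, Matrix.mul_one]
    rw [← sub_idem P h2 i j]
    ext x y
    simp [Matrix.sum_apply, Finset.sum_mul]

omit [DecidableEq ι] in
lemma blocks_C (P : Matrix (ι × γ) (ι × γ) ℂ) (h1 : Pᴴ = P) (h2 : P * P = P) :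
    Blocks (fun i j => toEuclideanLin (blkC (β := β) P i j)) := by
  apply blocks_of
  · intro i j
    rw [blkC, conjTranspose_kronecker, conjTranspose_one, sub_herm P h1]
    rfl
  · intro i j
    simp only [blkC, ← mul_kronecker_mul, Matrix.mul_one]
    rw [← sub_idem P h2 i j]
    ext x y
    simp [Matrix.sum_apply, Finset.mul_sum]

omit [DecidableEq ι] [Fintype ι] in
lemma blk_comm (P : Matrix (ι × β) (ι × β) ℂ) (Q : Matrix (ι × γ) (ι × γ) ℂ) (i j k l : ι)
    (v : EuclideanSpace ℂ (β × γ)) :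
    toEuclideanLin (blkB P i j) (toEuclideanLin (blkC Q k l) v) =
      toEuclideanLin (blkC Q k l) (toEuclideanLin (blkB P i j) v) := by
  have : blkB (γ := γ) P i j * blkC Q k l = blkC Q k l * blkB P i j := by
    simp only [blkB, blkC, ← mul_kronecker_mul, Matrix.mul_one, Matrix.one_mul]
  have h2 := congrArg (fun M => toEuclideanLin M v) this
  simp only [toLpLin_mul_same] at h2
  exact h2

omit [DecidableEq ι] in
lemma trace_B (P : Matrix (ι × β) (ι × β) ℂ) (ψ : ι × β × γ → ℂ) :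
    (P * RC ψ).trace = ∑ j, ∑ i, ⟪comp ψ i, toEuclideanLin (blkB P j i) (comp ψ j)⟫_ℂ := by
  simp only [trace, diag_apply, mul_apply, RC, of_apply, Fintype.sum_prod_type, PiLp.inner_apply,
    comp, toLpLin_apply, mulVec, dotProduct, blkB, kroneckerMap_apply, one_apply, mul_ite, mul_one,
    mul_zero, ite_mul, zero_mul, Finset.sum_ite_eq, Finset.mem_univ, if_true, RCLike.inner_apply,
    Finset.mul_sum, Finset.sum_mul]
  refine Finset.sum_congr rfl fun j _ => ?_
  rw [Finset.sum_comm]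
  refine Finset.sum_congr rfl fun i _ => Finset.sum_congr rfl fun x _ => ?_
  rw [Finset.sum_comm]
  refine Finset.sum_congr rfl fun k _ => Finset.sum_congr rfl fun y _ => ?_
  rw [Complex.star_def]
  ring

omit [DecidableEq ι] in
lemma trace_C (P : Matrix (ι × γ) (ι × γ) ℂ) (ψ : ι × β × γ → ℂ) :
    (P * RB ψ).trace = ∑ j, ∑ i, ⟪comp ψ i, toEuclideanLin (blkC P j i) (comp ψ j)⟫_ℂ := by
  simp only [trace, diag_apply, mul_apply, RB, of_apply, Fintype.sum_prod_type, PiLp.inner_apply,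
    comp, toLpLin_apply, mulVec, dotProduct, blkC, kroneckerMap_apply, one_apply, one_mul,
    ite_mul, zero_mul, RCLike.inner_apply, Finset.mul_sum, Finset.sum_mul, Finset.sum_ite_irrel,
    Finset.sum_const_zero, Finset.sum_ite_eq, Finset.mem_univ, if_true]
  refine Finset.sum_congr rfl fun j _ => ?_
  rw [Finset.sum_comm]
  refine Finset.sum_congr rfl fun i _ => ?_
  conv_rhs => rw [Finset.sum_comm]
  refine Finset.sum_congr rfl fun x _ => ?_
  rw [Finset.sum_comm]
  refine Finset.sum_congr rfl fun k _ => Finset.sum_congr rfl fun y _ => ?_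
  rw [Complex.star_def]
  ring

end Pool.Agent.H380Z.Neg
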